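import Pool.Agent.SGE.Stmts

/-!
# Squad SGP (MP_41797f_co): planar graphs and Apollonian paths, definitions

THEOREM X.  `G₁` planar on `n` vertices, `G₂` a graph on `n` vertices with an order of the vertices
and a colouring with three colours such that for every edge `v_i v_j`, `i < j`, no `v_l` with
`i < l < j` has the colour of `v_i` (for instance pathwidth at most two, nested triangles, wheels).
Then `G₁` and `G₂` have straight-line crossing-free drawings on one set of `n` points.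
-/

noncomputable section

namespace Pool.Agent.SGP

open Pool.Agent.SGE

/-- `x` is not isolated -/
def Rel {V : Type} (E : V → V → Prop) (x : V) : Prop := ∃ y, E x y

/-- the interior vertices of the triangulated triangle `a b c` -/
def Inn {V : Type} (a b c : V) (E : V → V → Prop) : Set V :=
  {x | x ≠ a ∧ x ≠ b ∧ x ≠ c ∧ Rel E x}

/-- the relation after the removal of `v` -/
def rE {V : Type} (E : V → V → Prop) (v : V) : V → V → Prop := fun u w => E u w ∧ u ≠ v ∧ w ≠ v

/-- the faces after the removal of `v` -/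
def rF {V : Type} (F : V → V → V → Prop) (v : V) : V → V → V → Prop :=
  fun u w t => F u w t ∧ u ≠ v ∧ w ≠ v ∧ t ≠ v

/-- the edges of the cone: `c` is joined to all elements of the contour `Z` -/
def cE {V : Type} (E : V → V → Prop) (c : V) (Z : List V) : V → V → Prop :=
  fun u w => E u w ∨ (u = c ∧ w ∈ Z) ∨ (w = c ∧ u ∈ Z)

/-- the faces of the cone -/
def cF {V : Type} (F : V → V → V → Prop) (c : V) (Z : List V) : V → V → V → Prop :=
  fun x y z => F x y z ∨ (Con Z x y ∧ z = c) ∨ (Con Z y z ∧ x = c) ∨ (Con Z z x ∧ y = c)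

/-- `(E', F')` is the triangulated triangle `(E, F)` after the contraction of `v` into the corner
`c`: `P ++ p :: v :: q :: Q` are the neighbours of `c` from `a` to `b`, the neighbours of `v` are
`c` and `p :: (mid ++ [q])`. -/
structure Ctr {V : Type} [Fintype V] (a b c : V) (E : V → V → Prop) (F : V → V → V → Prop)
    (E' : V → V → Prop) (F' : V → V → V → Prop) (P : List V) (p v q : V) (mid Q : List V) :
    Prop where
  nt : NT a b [a, c, b] E' F'
  va : v ≠ a
  vb : v ≠ b
  vc : v ≠ c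
  iso : ∀ x, ¬ E' v x
  sub : ∀ u w, E u w → u ≠ v → w ≠ v → E' u w
  nv : ∀ y, E v y ↔ y = c ∨ y ∈ p :: (mid ++ [q])
  nc : ∀ y, E c y ↔ y = v ∨ y ∈ P ++ [p] ∨ y ∈ q :: Q
  ch : (P ++ p :: (mid ++ q :: Q)).IsChain (fun x y => F' x y c)
  hd : (P ++ p :: (mid ++ q :: Q)).head? = some a
  ls : (P ++ p :: (mid ++ q :: Q)).getLast? = some b
  nd : (P ++ p :: (mid ++ q :: Q)).Nodup
  nc' : ∀ y, E' c y ↔ y ∈ P ++ p :: (mid ++ q :: Q)
  f0 : ∀ x y z, F x y z → x ≠ v → y ≠ v → z ≠ v → F' x y z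
  f1 : ∀ x y, F x y v → (x ≠ c ∧ y ≠ c ∧ F' x y c) ∨ (x = c ∧ y = p) ∨ (x = q ∧ y = c)
  rel : ∀ x, Rel E x ↔ x = v ∨ Rel E' x

/-- the vertices of the Apollonian path: the three corners and the points `0, 1, 2, ...`.  The point
`i` replaces the corner `w i` of the current triangle. -/
def A2 (k : ℕ) (w : ℕ → Fin 3) : Fin 3 ⊕ ℕ → Fin 3 ⊕ ℕ → Prop
  | Sum.inl X, Sum.inl Y => X ≠ Y
  | Sum.inl X, Sum.inr i => i < k ∧ ∀ l, l < i → w l ≠ X
  | Sum.inr i, Sum.inl X => i < k ∧ ∀ l, l < i → w l ≠ X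
  | Sum.inr i, Sum.inr j => i < k ∧ j < k ∧
      ((i < j ∧ ∀ l, i < l → l < j → w l ≠ w i) ∨ (j < i ∧ ∀ l, j < l → l < i → w l ≠ w j))

/-- the vertices of `V` used for the Apollonian path -/
def vx {V : Type} (a b c : V) (π : ℕ → V) : Fin 3 ⊕ ℕ → V
  | Sum.inl X => if X = 0 then a else if X = 1 then b else c
  | Sum.inr i => π i

/-- The placement `f` is good for the triangulated triangle and the word `w` of length `k`: all faces
are positive, no crossings, and the Apollonian path is drawn with its points at `π 0, π 1, ...`. -/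
structure Good {V : Type} (a b c : V) (E : V → V → Prop) (F : V → V → V → Prop) (k : ℕ)
    (w : ℕ → Fin 3) (f : V → ℝ × ℝ) (π : ℕ → V) : Prop where
  gp : ∀ x y z, Rel E x → Rel E y → Rel E z → x ≠ y → x ≠ z → y ≠ z → o (f x) (f y) (f z) ≠ 0
  tri : 0 < o (f a) (f b) (f c)
  ins : ∀ x ∈ Inn a b c E, 0 < o (f a) (f b) (f x) ∧ 0 < o (f b) (f c) (f x) ∧
    0 < o (f c) (f a) (f x)
  fac : ∀ x y z, F x y z → 0 < o (f x) (f y) (f z)
  cr1 : ∀ x y z t, E x y → E z t → ¬ Xs (f x) (f y) (f z) (f t)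
  pin : ∀ i, i < k → π i ∈ Inn a b c E
  pij : ∀ i j, i < k → j < k → π i = π j → i = j
  psu : ∀ x ∈ Inn a b c E, ∃ i, i < k ∧ π i = x
  cr2 : ∀ s t s' t', A2 k w s t → A2 k w s' t' → ¬ Xs (f (vx a b c π s)) (f (vx a b c π t))
    (f (vx a b c π s')) (f (vx a b c π t'))

/-- `X` is a point near `c` in the open angle `p c q`; `R` are the vertices to be considered. -/
structure Near {V : Type} (c p q : V) (R : V → Prop) (f : V → ℝ × ℝ) (X : ℝ × ℝ) : Prop where
  near : ∀ y z, R y → R z → y ≠ c → z ≠ c → y ≠ z → 0 < o X (f y) (f z) * o (f c) (f y) (f z)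
  rt : ∀ y, R y → y ≠ c → 0 ≤ o (f c) (f y) (f p) → 0 ≤ o (f c) (f y) (f q) →
    0 < o (f c) (f y) X
  lt : ∀ y, R y → y ≠ c → 0 ≤ o (f c) (f p) (f y) → 0 ≤ o (f c) (f q) (f y) →
    0 < o (f c) X (f y)
  gen : ∀ y, R y → y ≠ c → o (f c) (f y) X ≠ 0

/-- path decompositions of width at most two of a graph on `Fin n`: the bags `B 0, B 1, ...` have at
most three elements, every vertex is in some bag and the bags containing it are consecutive, both
ends of every edge are in some bag -/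
structure PD2 {n : ℕ} (G : SimpleGraph (Fin n)) (B : ℕ → Finset (Fin n)) : Prop where
  card : ∀ t, (B t).card ≤ 3
  ex : ∀ v, ∃ t, v ∈ B t
  conv : ∀ v r s t, r ≤ s → s ≤ t → v ∈ B r → v ∈ B t → v ∈ B s
  edge : ∀ u v, G.Adj u v → ∃ t, u ∈ B t ∧ v ∈ B t

/-- `G` is a subgraph of an Apollonian path: an order `σ 0, σ 1, ...` of the vertices and a colouring
with three colours -/
def Apo {n : ℕ} (G : SimpleGraph (Fin n)) : Prop :=
  ∃ (σ : Equiv.Perm (Fin n)) (w : Fin n → Fin 3), ∀ i j l, i < l → l < j →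
    G.Adj (σ i) (σ j) → w l ≠ w i

end Pool.Agent.SGP
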