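import Pool.Agent.SGP.Defs

/-!
# Squad SGP: the statements of the modules, with complete proofs
-/

noncomputable section

namespace Pool.Agent.SGP

open Pool.Agent.SGE

/-- ROT: rotation of the corners.
PROOF. `NT.bd` for `a b [a, c, b]` is `Tri (Fan E F) [b, a, c, b, a]`, that is `Fan b a c`,
`Fan a c b`, `Fan c b a`; for `b c [b, a, c]` it is `Tri (Fan E F) [c, b, a, c, b]`, that is
`Fan c b a`, `Fan b a c`, `Fan a c b`: the same three (unfold `Tri`, `List.append`).  `con`: paths
start at `b` now, `E b a` because `b` is the head of the list of `Fan b a c` at `a` (`E a b`, `sym`).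
`int`: the same vertices.  `nd`, `hd`, `ls` trivial, `ab` is `b ≠ c` (from `nd`). -/
def RotStmt : Prop := ∀ {V : Type} [Fintype V] {a b c : V} {E : V → V → Prop}
  {F : V → V → V → Prop}, NT a b [a, c, b] E F → NT b c [b, a, c] E F

/-- RMV: removal of a contour vertex without chords, with explicit edges and faces.
PROOF. This is `Pool.Agent.SGE.H60.rem` (file `Pool/Agent/Helper60_SGE/Rem.lean`): the proof there
uses exactly these relations `rE`, `rF` (same definitions), only the statement `RemStmt` hides them.
Copy the file, replace the existential quantifiers over `E'`, `F'`. -/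
def RmvStmt : Prop := ∀ {V : Type} [Fintype V] {a b : V} {P Q : List V} {p v q : V}
  {E : V → V → Prop} {F : V → V → V → Prop}, NT a b (P ++ p :: v :: q :: Q) E F →
  (∀ x ∈ P ++ p :: v :: q :: Q, E v x → x = p ∨ x = q) →
  ∃ mid : List V, NT a b (P ++ p :: (mid ++ q :: Q)) (rE E v) (rF F v) ∧
    (∀ x, E v x ↔ x ∈ p :: (mid ++ [q])) ∧ (p :: (mid ++ [q])).IsChain (fun x y => F x y v) ∧
    ∀ x y, F x y v → Con (p :: (mid ++ [q])) x y

/-- CON: the cone over the contour.
PROOF. `Z = a :: z :: Z'` (two elements at least because `a ≠ b`).  `NtaStmt` with `P = []`, `p = a`,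
`q = z`, `Q = Z'`, `v = c`: contour `a :: c :: z :: Z'`.  Then `NtbStmt` with `P = [a]`... more
precisely: claim by induction on the list `L` for `NT a b (a :: c :: z :: L) E₁ F₁` with
`c` adjacent to `a` and `z` only (among the elements of `z :: L`; `c` is not adjacent to the elements
of `L` because `c` was isolated): if `L = []` done, if `L = y :: L'` then `NtbStmt` with `P = [a]`,
`p = c`, `v = z`, `q = y`, `Q = L'` (`¬ E₁ c y`) gives the contour `a :: c :: y :: L'` with the new
edge `c y` and the new face `c z y`.  The relations at the end are equal to `cE`, `cF` (funext,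
propext; `Con (a :: z :: Z')`).  NOTE on orientations: `NtaStmt` adds the face `(a, z, c)` =
`(x, y, c)` for the consecutive pair `x = a`, `y = z`; `NtbStmt` adds `addF F c z y` = the rotations
of `(c, z, y)`, i.e. of `(z, y, c)`: again consecutive `z, y` and then `c`. -/
def ConStmt : Prop := ∀ {V : Type} [Fintype V] {a b c : V} {Z : List V}
  {E : V → V → Prop} {F : V → V → V → Prop}, NT a b Z E F → (∀ x, ¬ E c x) → c ∉ Z →
  NT a b [a, c, b] (cE E c Z) (cF F c Z)

/-- CTR: contraction into the corner `c`.
PROOF. (1) `RmvStmt` with `P = []`, `p = a`, `v = c`, `q = b`, `Q = []` (the contour is `[a, c, b]`,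
the chord condition is trivial with `irr`): `mid₁`, `N₁ : NT a b (a :: (mid₁ ++ [b])) (rE E c) (rF F c)`,
`E c x ↔ x ∈ a :: (mid₁ ++ [b])`.  (2) `mid₁ ≠ []`: otherwise the contour of `N₁` is `[a, b]`,
`N₁.bd` gives `Fan b a b` (a list without repetition with first and last element `b`, so
`rE E c a z ↔ z = b`) and `Fan a b a`, so by `N₁.con` only `a` and `b` have `rE E c`-neighbours; but
an interior vertex `x` with `E x y` has `y ≠ c` (`E c x` would give `x ∈ [a, b]`), contradiction.
(3) `ExvStmt` (proved: `SGE.H20.exv SGE.H20.chd`, file `Pool/Agent/Helper20_SGE/Exv.lean`) for `N₁` (`a :: (mid₁ ++ [b]) ≠ [a, b]`): `P, p, v, q, Q` with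
`a :: (mid₁ ++ [b]) = P ++ p :: v :: q :: Q` and no chords at `v`.  (4) `RmvStmt` for `N₁` and `v`:
`mid`, `N₂ : NT a b Z (rE (rE E c) v) (rF (rF F c) v)`, `Z = P ++ p :: (mid ++ q :: Q)`, neighbours of
`v` in `rE E c` are `p :: (mid ++ [q])`.  (5) `ConStmt` for `N₂` and `c`: `E' = cE (rE (rE E c) v) c Z`,
`F' = cF (rF (rF F c) v) c Z`.  `c ∉ Z` and `v ∉ Z`: `Z` has neighbours in `N₂` (every contour vertex
has a neighbour: `Fan`), `c` and `v` have none.  All fields of `Ctr` by unfolding; `v ≠ a, b`: `v` is
between `p` and `q` in a list without repetition with head `a` and last element `b`.  `f0`: if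
`z = c` then `F x y c`, so `Con (a :: (mid₁ ++ [b])) x y` by the last clause of `RmvStmt`, and
`x, y ≠ v` gives `Con Z x y`; the other rotations with `N.rot`.  `f1`: `F x y v` with `x, y ≠ c` is a
face of `rF F c`, so `Con (p :: (mid ++ [q])) x y`, so `Con Z x y`; if `x = c` then `F y v c` (`rot`)
so `Con (P ++ p :: v :: q :: Q) y v`, `y = p`; if `y = c` then `F v x c`, `x = q`.  `rel`: `y` adjacent
to `v` is `c` or in `Z`. -/
def CtrStmt : Prop := ∀ {V : Type} [Fintype V] {a b c : V} {E : V → V → Prop}
  {F : V → V → V → Prop}, NT a b [a, c, b] E F → (Inn a b c E).Nonempty →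
  ∃ (E' : V → V → Prop) (F' : V → V → V → Prop) (P : List V) (p v q : V) (mid Q : List V),
    Ctr a b c E F E' F' P p v q mid Q

/-- SRT: a chain in an angle is sorted.
PROOF. First: for `x, y, z` in `L` with `0 < o c x y` and `0 < o c y z` we have `0 < o c x z`:
identity `o c x z * o c y b = o c x y * o c z b + o c x b * o c y z` (`unfold o; ring`).  Here
`o c x b > 0` and `o c z b ≥ 0` and `o c y b > 0`: `x ≠ b` because `0 < o c b y` contradicts `0 ≤ o c y b`
(if `y = b` then `o c y y = 0`), `y ≠ b` because `0 < o c b z` contradicts `0 ≤ o c z b`; `z = b` gives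
`o c z b = 0`.  Then `List.isChain_iff_pairwise` needs a transitive relation: use induction on `L`
(pairwise for the tail, the head `x` with the second element `y`: for `z` after `y`, `0 < o c y z`). -/
def SrtStmt : Prop := ∀ (c b : ℝ × ℝ) (L : List (ℝ × ℝ)),
  L.IsChain (fun x y => 0 < o c x y) → (∀ y ∈ L, y ≠ b → 0 < o c y b) →
  L.Pairwise (fun x y => 0 < o c x y)

/-- INS: a point near `c` in the angle `p c q`.
PROOF. `X = c + ε ((p - c) + θ (q - c))`.  `o c y X = ε (o c y p + θ o c y q)` (bilinear), so `rt`
and `lt` hold for all `ε, θ > 0` (both numbers are `≥ 0` and not both zero: `o c y p = o c y q = 0`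
with `0 < o c p q` gives `y = c` as points; excluded by `hc`).  `gen`: finitely many values of `θ` are
forbidden (`R` is on a Fintype).  `near`: `o X y z` is continuous in `ε` (a polynomial of degree one)
with the value `o c y z ≠ 0` at `ε = 0`; finitely many pairs. -/
def InsStmt : Prop := ∀ {V : Type} [Fintype V] (c p q : V) (R : V → Prop) (f : V → ℝ × ℝ),
  0 < o (f c) (f p) (f q) → (∀ y, R y → y ≠ c → f y ≠ f c) →
  (∀ y z, R y → R z → y ≠ c → z ≠ c → y ≠ z → o (f c) (f y) (f z) ≠ 0) → ∃ X, Near c p q R f X

/-- NXS: a crossing of four vertices different from `c`, where `v` is near `c`, is also a crossing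
with `c` in the place of `v`.
PROOF. `η x = c` if `x = v`, else `x`.  In `Xs` all four numbers are not zero.  So `x, y, z, t` have
different positions where they are compared; for three vertices `x, y, z ≠ c` with
`o (g x) (g y) (g z) ≠ 0` (`g = Function.update f v X`) the number has the same sign as
`o (f (η x)) (f (η y)) (f (η z))`: if none is `v`, equal; if one is `v`, rotate it to the first place
and use `Near.near` (the other two are different, otherwise the number is `0`; they have `R`); if two
are `v`, the number is `0`. -/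
def NxsStmt : Prop := ∀ {V : Type} [DecidableEq V] {c p q v : V} {R : V → Prop} {f : V → ℝ × ℝ}
  {X : ℝ × ℝ}, Near c p q R f X → v ≠ c → ∀ x y z t, x ≠ c → y ≠ c → z ≠ c → t ≠ c →
  (x = v ∨ R x) → (y = v ∨ R y) → (z = v ∨ R z) → (t = v ∨ R t) →
  Xs (Function.update f v X x) (Function.update f v X y) (Function.update f v X z)
    (Function.update f v X t) →
  Xs (f (if x = v then c else x)) (f (if y = v then c else y)) (f (if z = v then c else z))
    (f (if t = v then c else t))

/-- STA: the first graph, the step.  `g = Function.update f v X`.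
PROOF.  `gp`, `tri`, `ins` for `x ≠ v` from `h` (`Rel E x ↔ x = v ∨ Rel E' x`, so `x` has `R`), with
`v` from `Near.near` and `Near.gen`; `ins` for `v`: `o (f a) (f b) X` has the sign of
`o (f a) (f b) (f c)` (`near`); `o c a X > 0` by `rt` (`o c a p ≥ 0` and `o c a q ≥ 0` because `p`, `q`
are `a`, `b` or interior) and `o b c X = o c X b > 0` by `lt`.  `fac`: faces without `v` by `Ctr.f0`;
if one vertex is `v` rotate (`NT.rot` of the first triangulation, hypothesis `hN`) so that it is the
last one and use `Ctr.f1`: `F' x y c` gives `0 < o x y c` and `near`; `(c, p, v)`: `0 < o c p X` by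
`rt` with `y = p` (`o c p p = 0`, `o c p q > 0`); `(q, c, v)`: `o q c X = o c X q > 0` by `lt`.
SORTED: `Z = P ++ p :: (mid ++ q :: Q)` mapped by `f` is a chain for `0 < o (f c) x y`
(`F' x y c`, rotate), and all elements are in the angle (`ins`, `Ctr.hd`, `Ctr.ls`), so pairwise by
`SrtStmt`; in particular `0 < o c p q`.
`cr1`: edges `x y`, `z t` of `E`.  (i) no end is `c`: by `NxsStmt` a crossing gives a crossing of
`E'`-edges with `c` for `v` (`v y ∈ E`, `y ≠ c` gives `y ∈ Z`, `E' c y`; the others by `Ctr.sub`).
(ii) the edge `c v` against `z t`: if `z` or `t` is `c` or `v`, one of the numbers is `0` (`o p q p = 0`);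
otherwise `o z t c * o z t X > 0` by `near`.  (iii) `c y`, `y ≠ v`, against `z t` with `z, t ≠ c`: if
none is `v`, both are `E'`-edges; if `z = v` (`t ≠ c`, `t ∈ p :: (mid ++ [q])`; `y = t` gives `0`):
if `y ∈ P ++ [p]` then `0 < o c y X` (`rt`: `y` is before or equal to `p`, and before `q`) and
`0 < o c y t`, product positive; if `y ∈ q :: Q` then `0 < o c X y` and `0 < o c t y`, product positive.
(iv) two edges at `c`: `0`.  `Xs p q r s` is symmetric under `p ↔ q`, `r ↔ s` and exchange of the
pairs. -/
def StaStmt : Prop := ∀ {V : Type} [Fintype V] [DecidableEq V] {a b c : V} {E E' : V → V → Prop}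
  {F F' : V → V → V → Prop} {P : List V} {p v q : V} {mid Q : List V} {k : ℕ} {w : ℕ → Fin 3}
  {f : V → ℝ × ℝ} {π : ℕ → V}, NT a b [a, c, b] E F → Ctr a b c E F E' F' P p v q mid Q →
  Good a b c E' F' k w f π →
  0 < o (f c) (f p) (f q) ∧ ∀ X, Near c p q (Rel E') f X →
    (∀ x y z, Rel E x → Rel E y → Rel E z → x ≠ y → x ≠ z → y ≠ z →
      o (Function.update f v X x) (Function.update f v X y) (Function.update f v X z) ≠ 0) ∧
    0 < o (Function.update f v X a) (Function.update f v X b) (Function.update f v X c) ∧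
    (∀ x ∈ Inn a b c E,
      0 < o (Function.update f v X a) (Function.update f v X b) (Function.update f v X x) ∧
      0 < o (Function.update f v X b) (Function.update f v X c) (Function.update f v X x) ∧
      0 < o (Function.update f v X c) (Function.update f v X a) (Function.update f v X x)) ∧
    (∀ x y z, F x y z →
      0 < o (Function.update f v X x) (Function.update f v X y) (Function.update f v X z)) ∧
    ∀ x y z t, E x y → E z t → ¬ Xs (Function.update f v X x) (Function.update f v X y)
      (Function.update f v X z) (Function.update f v X t)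

/-- STB: the second graph, the step.  `π' 0 = v`, `π' (i + 1) = π i`, the word `w` with `w 0 = 2`.
PROOF. `pin`, `pij`, `psu`: `Inn a b c E = {v} ∪ Inn a b c E'` (`Ctr.rel`), `v ∉ Inn a b c E'` (`iso`).
`cr2`: translate the vertices different from `Sum.inl 2`: `θ (inl X) = inl X` (`X = 0, 1`),
`θ (inr 0) = inl 2`, `θ (inr (i + 1)) = inr i`.  (1) If `s, t ≠ inl 2` and `A2 (k + 1) w s t` then
`A2 k (fun i => w (i + 1)) (θ s) (θ t)`, and the vertex `vx a b c π (θ s)` is
`if vx a b c π' s = v then c else vx a b c π' s` (`a, b ≠ v`, `π i ≠ v` because `v` is isolated in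
`E'`).  So by `NxsStmt` (`R = Rel E'`; corners and interior vertices have `Rel E'`) two edges without
`inl 2` do not cross.  (2) An edge at `inl 2`: the other end is `inl 0`, `inl 1` or `inr 0`
(`w 0 = 2` excludes `inr j`, `0 < j`).  `c a` against `s t`: all the other points `y` have
`o c a y ≥ 0` (interior: third inequality of `ins` of the new placement, see `StaStmt`; `a`, `c`: `0`;
`b`: `o c a b > 0`), so the product is `≥ 0`.  `c b`: all `o c b y ≤ 0`.  `c v` against `s t`: if `s`
or `t` is `c` or `v` the product is `0`; otherwise `o s t c * o s t X > 0` by `near` (or `s`, `t` have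
the same vertex and all is `0`). -/
def StbStmt : Prop := ∀ {V : Type} [Fintype V] [DecidableEq V] {a b c : V} {E E' : V → V → Prop}
  {F F' : V → V → V → Prop} {P : List V} {p v q : V} {mid Q : List V} {k : ℕ} {w : ℕ → Fin 3}
  {f : V → ℝ × ℝ} {π : ℕ → V} {X : ℝ × ℝ}, NT a b [a, c, b] E F →
  Ctr a b c E F E' F' P p v q mid Q → w 0 = 2 → Good a b c E' F' k (fun i => w (i + 1)) f π →
  Near c p q (Rel E') f X →
  (∀ x ∈ Inn a b c E,
    0 < o (Function.update f v X a) (Function.update f v X b) (Function.update f v X x) ∧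
    0 < o (Function.update f v X b) (Function.update f v X c) (Function.update f v X x) ∧
    0 < o (Function.update f v X c) (Function.update f v X a) (Function.update f v X x)) →
  ∀ π' : ℕ → V, π' 0 = v → (∀ i, π' (i + 1) = π i) →
    (∀ i, i < k + 1 → π' i ∈ Inn a b c E) ∧
    (∀ i j, i < k + 1 → j < k + 1 → π' i = π' j → i = j) ∧
    (∀ x ∈ Inn a b c E, ∃ i, i < k + 1 ∧ π' i = x) ∧
    ∀ s t s' t', A2 (k + 1) w s t → A2 (k + 1) w s' t' →
      ¬ Xs (Function.update f v X (vx a b c π' s)) (Function.update f v X (vx a b c π' t))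
        (Function.update f v X (vx a b c π' s')) (Function.update f v X (vx a b c π' t'))

/-- GRO: rotation of the corners for `Good`.
PROOF. The corner with index `X` for `(a, b, c)` has the index `X + 2` for `(b, c, a)`:
`vx a b c π (inl X) = vx b c a π (inl (X + 2))` (`fin_cases X`), and
`A2 k w s t → A2 k (fun i => w i + 2) (ρ s) (ρ t)` with `ρ (inl X) = inl (X + 2)`, `ρ (inr i) = inr i`
(addition of `2` in `Fin 3` is injective).  The statement here goes from `(b, c, a)` to `(a, b, c)`:
`cr2` for `s, t, s', t'` is `cr2` of the hypothesis for `ρ s, ρ t, ρ s', ρ t'`.  `tri`, `ins`: `o` is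
invariant under rotation; `Inn b c a E = Inn a b c E` as sets. -/
def GroStmt : Prop := ∀ {V : Type} {a b c : V} {E : V → V → Prop} {F : V → V → V → Prop} {k : ℕ}
  {w : ℕ → Fin 3} {f : V → ℝ × ℝ} {π : ℕ → V}, Good b c a E F k (fun i => w i + 2) f π →
  Good a b c E F k w f π

/-- MAI: the main induction.
PROOF. Induction on `k`, for all `a b c E F w`.  `k = 0`: no interior vertices; `f a = (0,0)`,
`f b = (1,0)`, `f c = (0,1)` (any map with these values), only the corners have `Rel`; faces: a face
`x y z` has its three vertices among `a, b, c` (`fe` and `rot`: `E x y`, `E y z`, `E z x`), all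
different (`irr`), and it is a rotation of `(a, b, c)`: `F a c z` is impossible (the list of the fan
at `a` from `b` to `c` has last element `c` and `¬ F a c z`), the same at `b` and `c`.  No crossings
among three points (two edges share a vertex, one of the numbers is `0`).  STEP `k + 1`: the set of
the interior vertices is not empty.  If `w 0 = 2`: `CtrStmt`, the induction hypothesis for
`E', F', fun i => w (i + 1)` (`Inn a b c E = {v} ∪ Inn a b c E'`, so `ncard = k`), `StaStmt`, `InsStmt`
with `R = Rel E'`, `StbStmt`: `Good a b c E F (k + 1) w (update f v X) π'`.  If `w 0 = 0`: `RotStmt`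
gives `NT b c [b, a, c] E F`; its top corner is `a`; the step for the word `fun i => w i + 2`, whose
first letter is `2`, and `GroStmt`.  If `w 0 = 1`: rotate twice (`w 0 + 2 + 2 = 2`). -/
def MaiStmt : Prop := ∀ (k : ℕ) {V : Type} [Fintype V] {a b c : V} {E : V → V → Prop}
  {F : V → V → V → Prop} (w : ℕ → Fin 3), NT a b [a, c, b] E F → (Inn a b c E).ncard = k →
  ∃ f π, Good a b c E F k w f π

/-- GEX: planar graphs have triangulations.
PROOF. As in `Pool/Agent/Helper29_SGE/Geo.lean` (`OutStmt`, `TmxStmt`, `SweStmt`; all are proved, see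
`Pool/Agent/Helper29_SGE/Main.lean`: `H75.out H99.seg H99.per`, `H99.tmx`, `H29.sweStmt`). -/
def GexStmt : Prop := ∀ {n : ℕ} (G : SimpleGraph (Fin n)), (∃ f, Draw G f) →
  ∃ (E : Fin n ⊕ Fin 3 → Fin n ⊕ Fin 3 → Prop)
    (F : Fin n ⊕ Fin 3 → Fin n ⊕ Fin 3 → Fin n ⊕ Fin 3 → Prop),
    NT (Sum.inr 0) (Sum.inr 1) [Sum.inr 0, Sum.inr 2, Sum.inr 1] E F ∧
    (∀ u v, G.Adj u v → E (Sum.inl u) (Sum.inl v)) ∧ ∀ v, ∃ x, E v x

/-- DRW: no three vertices on a line and no crossings give a drawing; `z` is a further vertex.
PROOF. `inj`: if `f u = f v`, `u ≠ v`, then `o (f u) (f v) (f w) = 0` for a third vertex `w` (there is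
one: `z`, a point which is not on any line; hypothesis `hz`).  `cross`: edges `a b ≠ c d`; if they share
no vertex then a common point of the segments gives `Xs` (`SegStmt`: all four numbers are not zero),
excluded; if they share a vertex, say `a = c`, `b ≠ d`: a common point of the segments `a b`, `a d` is
`a + s (b - a) = a + t (d - a)`, and `o a b d ≠ 0` gives `s = t = 0`.  `vert`: `v` on the segment
`a b`, `v ≠ a, b` gives `o a b v = 0`. -/
def DrwStmt : Prop := ∀ {V : Type} {G : SimpleGraph V} {f : V → ℝ × ℝ} (z : ℝ × ℝ),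
  (∀ x y w, x ≠ y → x ≠ w → y ≠ w → o (f x) (f y) (f w) ≠ 0) →
  (∀ x y, x ≠ y → o (f x) (f y) z ≠ 0) →
  (∀ x y w t, G.Adj x y → G.Adj w t → ¬ Xs (f x) (f y) (f w) (f t)) → Draw G f

/-- PW1: path decompositions of width two give orders in which at most two of the first vertices are
still active.
PROOF. `m v` = the first bag with `v` (`Nat.find`).  Order the vertices by `m` (ties arbitrary):
`σ : Fin n ≃ Fin n` with `m ∘ σ` monotone (`Tuple.sort`).  For `j` let `i < j`, `j ≤ l`,
`G.Adj (σ i) (σ l)`: both are in some bag `t`, `t ≥ m (σ l) ≥ m (σ j) ≥ m (σ i)`, so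
`σ i ∈ B (m (σ j))` by `conv`; also `σ j ∈ B (m (σ j))`.  So these `σ i` together with `σ j` are at
most three elements of `B (m (σ j))`. -/
def Pw1Stmt : Prop := ∀ {n : ℕ} (G : SimpleGraph (Fin n)) (B : ℕ → Finset (Fin n)), PD2 G B →
  ∃ σ : Equiv.Perm (Fin n), ∀ j, {i : Fin n | i < j ∧ ∃ l, j ≤ l ∧ G.Adj (σ i) (σ l)}.ncard ≤ 2

/-- PW2: such orders have a colouring with three colours.
PROOF. Colour the vertices one after the other: `w j` is a colour different from the colours of the at
most two active vertices `i < j` with an edge to some `l ≥ j` (strong recursion; or: induction on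
`m ≤ n` for partial colourings `w : Fin n → Fin 3` with the property for all `l < m`).  If
`i < l < j` and `G.Adj (σ i) (σ j)` then `i` is active at `l`, so `w l ≠ w i`. -/
def Pw2Stmt : Prop := ∀ {n : ℕ} (G : SimpleGraph (Fin n)) (σ : Equiv.Perm (Fin n)),
  (∀ j, {i : Fin n | i < j ∧ ∃ l, j ≤ l ∧ G.Adj (σ i) (σ l)}.ncard ≤ 2) → Apo G

/-- THX: the theorem.
PROOF. `n = 0`: `P = ∅`.  `GexStmt` for `G₁`: `E, F` on `Fin n ⊕ Fin 3`, all vertices have `Rel`;
`Inn` = the range of `Sum.inl`, `ncard = n`.  `MaiStmt` with `k = n` and a word extending `w`: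
`f, π` with `Good`.  `P` = the image of `f ∘ Sum.inl` (injective by `gp`: `o (f x) (f y) (f corner)`).
`G₁`: `f ∘ Sum.inl` with `DrwStmt` (`z = f (Sum.inr 0)`).  `G₂`: `v ↦ f (π (σ.symm v))`; an edge
`σ i — σ j` of `G₂` is an edge `inr i — inr j` of `A2 n w` (`i < j`, or `j < i` with the symmetric
edge), so no crossings by `cr2`; general position by `gp`, `pij`. -/
def ThxStmt : Prop := ∀ (n : ℕ) (G₁ G₂ : SimpleGraph (Fin n)), (∃ f, Draw G₁ f) → Apo G₂ →
  ∃ P : Finset (ℝ × ℝ), P.card = n ∧ (∃ f, Draw G₁ f ∧ ∀ v, f v ∈ P) ∧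
    ∃ f, Draw G₂ f ∧ ∀ v, f v ∈ P

end Pool.Agent.SGP
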